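import Mathlib

set_option autoImplicit false

namespace Pool.Agent.Results.MP_2abcfb_lc.Upper

open Set Filter Topology MeasureTheory Metric
open scoped ENNReal symmDiff

def psi (M : Set ℝ) : Set ℝ := ⋂ n : ℕ, ⋃ p ∈ {p : ℝ × ℝ | 0 < p.2 ∧ p.2 < 1 / (n + 1) ∧
  ENNReal.ofReal p.2 < volume (M ∩ closedBall p.1 p.2)}, ball p.1 p.2

lemma psi_mono {M M' : Set ℝ} (h : M ≤ᵐ[volume] M') : psi M ⊆ psi M' :=
  iInter_mono fun _ => biUnion_subset_biUnion_left fun _ hp =>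
    ⟨hp.1, hp.2.1, hp.2.2.trans_le (measure_mono_ae (h.inter EventuallyLE.rfl))⟩

lemma psi_ae {M : Set ℝ} (hM : MeasurableSet M) : M =ᵐ[volume] psi M := by
  filter_upwards [Besicovitch.ae_tendsto_measure_inter_div_of_measurableSet volume hM] with x hx
  refine propext ⟨fun h => mem_iInter.2 fun n => ?_, fun h => ?_⟩
  · rw [indicator_of_mem h] at hx
    obtain ⟨r, h3, h1, h2⟩ := (((tendsto_order.1 hx).1 2⁻¹ (by simp)).and
      (Ioo_mem_nhdsGT (show (0 : ℝ) < 1 / ((n : ℝ) + 1) by positivity))).exists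
    refine mem_biUnion (x := (x, r)) ⟨h1, h2, ?_⟩ (mem_ball_self h1)
    rw [Real.volume_closedBall, ENNReal.lt_div_iff_mul_lt (by simp [h1]) (Or.inl ENNReal.ofReal_ne_top),
      ENNReal.ofReal_mul (by norm_num), ← mul_assoc] at h3
    simpa [ENNReal.inv_mul_cancel] using h3
  · by_contra hc
    rw [indicator_of_notMem hc] at hx
    obtain ⟨ε, h1, h2⟩ := (nhdsGT_basis (0 : ℝ)).eventually_iff.1
      ((tendsto_order.1 hx).2 4⁻¹ (by simp))
    obtain ⟨n, hn⟩ := exists_nat_one_div_lt (half_pos h1)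
    obtain ⟨⟨y, r⟩, ⟨h3, h4, h5⟩, h6⟩ := mem_iUnion₂.1 (mem_iInter.1 h n)
    have h7 := h2 (x := 2 * r) ⟨by positivity, by linarith⟩
    rw [Real.volume_closedBall, ENNReal.div_lt_iff (by simp [h3]) (Or.inl ENNReal.ofReal_ne_top),
      ← mul_assoc,
      ENNReal.ofReal_mul (by norm_num), ← mul_assoc, show (2 * 2 : ℝ) = 4 by norm_num] at h7
    refine lt_asymm (h5.trans_le (measure_mono (inter_subset_inter_right _
      (closedBall_subset_closedBall' (ε₂ := 2 * r) (y := x) ?_)))) ?_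
    · have := mem_ball'.1 h6
      simp only at this ⊢
      linarith
    · simpa [ENNReal.inv_mul_cancel] using h7

theorem result : ∃ ψ : Set ℝ → Set ℝ, (∀ M, IsGδ (ψ M)) ∧ (∀ M M', M ⊆ M' → ψ M ⊆ ψ M') ∧
    (∀ M, NullMeasurableSet M volume → volume (M ∆ ψ M) = 0) ∧
    ∀ M M', volume (M ∆ M') = 0 → ψ M = ψ M' := by
  have k : ∀ M M', M =ᵐ[volume] M' → psi M = psi M' := fun M M' h =>
    (psi_mono h.le).antisymm (psi_mono h.symm.le)
  refine ⟨psi, fun M => .iInter_of_isOpen fun n => isOpen_biUnion fun _ _ => isOpen_ball,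
    fun M M' h => psi_mono h.eventuallyLE, fun M hM => ?_,
    fun M M' h => k _ _ (measure_symmDiff_eq_zero_iff.1 h)⟩
  obtain ⟨t, h1, h2⟩ := hM
  rw [measure_symmDiff_eq_zero_iff, k _ _ h2]
  exact h2.trans (psi_ae h1)

end Pool.Agent.Results.MP_2abcfb_lc.Upper
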